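import Pool.Agent.SGL.StmtsA

set_option autoImplicit false

/-!
# AUF of the squad SGL (problem MP_41797f_co): the result of part A
-/

noncomputable section

namespace Pool.Agent.SGL.H41

open Pool.Agent.SGE Pool.Agent.SGP Pool.Agent.SGY Pool.Agent.SGD

theorem auf (snf : SnfStmt) (aug : AugStmt) (crn : CrnStmt) (nsg : NsgStmt) : AufStmt := by
  intro n G a hn hG
  obtain ⟨E₀, Φ₀, ok₀⟩ := snf G a hn hG
  have hsym : ∀ p q, gE G p q → gE G q p := by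
    rintro p q ⟨u, v, rfl, rfl, h⟩
    exact ⟨v, u, rfl, rfl, h.symm⟩
  obtain ⟨E, Φ, ok, tri⟩ := aug hsym (Set.mem_range_self a) ok₀
  obtain ⟨b', c', F, rb, rc, nt⟩ := crn ok.sph (Sum.inl a) ((ok.rel _).2 (Set.mem_range_self a))
  obtain ⟨b, rfl⟩ := (ok.rel _).1 rb
  obtain ⟨c, rfl⟩ := (ok.rel _).1 rc
  have hinr : ∀ i : Fin 3, ¬ Rel E (Sum.inr i) := by
    intro i h
    obtain ⟨x, hx⟩ := (ok.rel _).1 h
    exact Sum.inl_ne_inr hx
  refine ⟨b, c, E, F, nt, fun u v h => ok.le _ _ ⟨u, v, rfl, rfl, h⟩, fun i x => ⟨?_, ?_⟩,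
    fun v => (ok.rel _).2 (Set.mem_range_self v),
    nsg (Sum.inl a) ok.sph ((ok.rel _).2 (Set.mem_range_self a)) tri⟩
  · intro h
    exact hinr i ⟨x, h⟩
  · intro h
    exact hinr i ⟨x, ok.sph.sym _ _ h⟩

end Pool.Agent.SGL.H41
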